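import Pool.Agent.RTF.Stmts

/-!
# Squad RTF: module INJK

A square matrix over the group ring that is invertible over the division ring `K` is injective on
finitely supported functions on `G` modulo `M j`, for large `j`.
-/

namespace Pool.Agent.RTF.H5

open Pool.Agent.Glue Pool.Agent.FB Pool.Agent.CD Pool.Agent.RTF

noncomputable section

variable {G : Type} [Group G]

theorem f2_cases (c : F2) : c = 0 ∨ c = 1 := by
  revert c
  decide

/-- The coefficients of a product with a group element. -/
theorem co_mul_sg (F : SF G) (u : F.U) (h x : G) :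
    F.co (u * F.sg h) x = F.co u (x * h⁻¹) := by
  rw [F.co_mul, finsum_eq_single _ (x * h⁻¹)]
  · rw [F.co_sg, if_pos (by group), mul_one]
  · intro y hy
    rw [F.co_sg, if_neg, mul_zero]
    intro e
    apply hy
    rw [← e]
    group

/-- The coefficients of a product with an element of the group ring. -/
theorem co_mul_sum (F : SF G) (u : F.U) (a : G →₀ F2) (x : G) :
    F.co (u * a.sum fun h c => (c : F2) • F.sg h) x =
      a.sum fun h c => c * F.co u (x * h⁻¹) := by
  rw [Finsupp.sum, Finsupp.sum, Finset.mul_sum, map_sum, Finset.sum_apply]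
  refine Finset.sum_congr rfl fun h _ => ?_
  rcases f2_cases (a h) with e | e
  · rw [e, zero_smul, mul_zero, map_zero, zero_mul]
    rfl
  · rw [e, one_smul, one_mul, co_mul_sg]

theorem p_sum {F : SF G} (D : KD G F) (a : G →₀ F2) :
    D.p (a.sum fun h c => (c : F2) • D.s h) = a.sum fun h c => (c : F2) • F.sg h := by
  rw [Finsupp.sum, Finsupp.sum, map_sum]
  refine Finset.sum_congr rfl fun h _ => ?_
  rcases f2_cases (a h) with e | e
  · rw [e, zero_smul, zero_smul, map_zero]
  · rw [e, one_smul, one_smul, D.ps]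

theorem fin1 {F : SF G} {B : Subgroup G} (hB : B.Normal) {u : F.U} (hu : FinOn F B u)
    (f : G ⧸ B → F2) (hf : (Function.support f).Finite) (g h : G) :
    (Function.support fun y => F.co u y * f ((g * y * h : G) : G ⧸ B)).Finite := by
  refine (hf.biUnion fun q _ => hu (g⁻¹ * q.out * h⁻¹)).subset ?_
  intro y hy
  have hy1 : F.co u y * f ((g * y * h : G) : G ⧸ B) ≠ 0 := hy
  have h1 : F.co u y ≠ 0 := left_ne_zero_of_mul hy1
  have h2 : f ((g * y * h : G) : G ⧸ B) ≠ 0 := right_ne_zero_of_mul hy1
  refine Set.mem_iUnion₂.2 ⟨((g * y * h : G) : G ⧸ B), h2, h1, ?_⟩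
  have h3 : (((g * y * h : G) : G ⧸ B).out : G ⧸ B) = ((g * y * h : G) : G ⧸ B) :=
    QuotientGroup.out_eq' _
  have h4 := QuotientGroup.eq.1 h3
  have h5 := hB.conj_mem _ h4 h
  have e : (g⁻¹ * ((g * y * h : G) : G ⧸ B).out * h⁻¹)⁻¹ * y =
      h * (((g * y * h : G) : G ⧸ B).out⁻¹ * (g * y * h)) * h⁻¹ := by
    group
  rw [e]
  exact h5

/-- INJK. -/
theorem injk (h1 : KrStmt) : InjkStmt := by
  classical
  intro G _ T F hF D r a hu
  obtain ⟨B, hB⟩ := hu.exists_left_inv
  have hj : ∀ l l' : Fin r, ∃ j, ∀ i, j ≤ i → FinOn F (T.M i) (D.p (B l l')) :=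
    fun l l' => h1 G T F hF D (B l l')
  choose J hJ using hj
  refine ⟨Finset.univ.sup fun p : Fin r × Fin r => J p.1 p.2, fun i hi f hf hk => ?_⟩
  have hfin : ∀ l l', FinOn F (T.M i) (D.p (B l l')) := fun l l' =>
    hJ l l' i ((Finset.le_sup (f := fun p : Fin r × Fin r => J p.1 p.2)
      (Finset.mem_univ (l, l'))).trans hi)
  have key : ∀ l m x, ∑ l', (a l' m).sum (fun h c => c * F.co (D.p (B l l')) (x * h⁻¹)) =
      if l = m ∧ x = 1 then 1 else 0 := by
    intro l m x
    have e1 := congrArg (fun M : Matrix (Fin r) (Fin r) D.K => F.co (D.p (M l m)) x) hB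
    simp only [Matrix.mul_apply, Matrix.of_apply, map_sum, map_mul, p_sum, Finset.sum_apply,
      co_mul_sum] at e1
    rw [e1, Matrix.one_apply]
    by_cases hlm : l = m
    · rw [if_pos hlm, map_one]
      have e2 := F.co_sg 1 x
      rw [map_one] at e2
      rw [e2]
      by_cases hx : x = 1
      · rw [if_pos hx, if_pos ⟨hlm, hx⟩]
      · rw [if_neg hx, if_neg fun h => hx h.2]
    · rw [if_neg hlm, map_zero, map_zero, if_neg fun h => hlm h.1]
      rfl
  funext l q
  obtain ⟨g, rfl⟩ := QuotientGroup.mk_surjective q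
  have e1 : f l (g : G ⧸ T.M i) = ∑ m, ∑ᶠ x : G,
      (if l = m ∧ x = 1 then (1 : F2) else 0) * f m ((g * x : G) : G ⧸ T.M i) := by
    rw [Finset.sum_eq_single l]
    · rw [finsum_eq_single _ (1 : G)]
      · rw [if_pos ⟨rfl, rfl⟩, one_mul, mul_one]
      · intro x hx
        rw [if_neg fun h => hx h.2, zero_mul]
    · intro m _ hm
      refine finsum_eq_zero_of_forall_eq_zero fun x => ?_
      rw [if_neg fun h => hm h.1.symm, zero_mul]
    · intro h
      exact absurd (Finset.mem_univ l) h
  have e2 : ∀ m, ∑ᶠ x : G, (if l = m ∧ x = 1 then (1 : F2) else 0) *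
        f m ((g * x : G) : G ⧸ T.M i) =
      ∑ l', ∑ h ∈ (a l' m).support, ∑ᶠ y : G,
        a l' m h * (F.co (D.p (B l l')) y * f m ((g * y * h : G) : G ⧸ T.M i)) := by
    intro m
    have e3 : ∀ x : G, (if l = m ∧ x = 1 then (1 : F2) else 0) *
        f m ((g * x : G) : G ⧸ T.M i) =
        ∑ l', ∑ h ∈ (a l' m).support,
          a l' m h * (F.co (D.p (B l l')) (x * h⁻¹) * f m ((g * x : G) : G ⧸ T.M i)) := by
      intro x
      rw [← key l m x, Finset.sum_mul]
      refine Finset.sum_congr rfl fun l' _ => ?_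
      rw [Finsupp.sum, Finset.sum_mul]
      refine Finset.sum_congr rfl fun h _ => ?_
      rw [mul_assoc]
    have hs : ∀ (l' : Fin r) (h : G), (Function.support fun x : G =>
        a l' m h * (F.co (D.p (B l l')) (x * h⁻¹) * f m ((g * x : G) : G ⧸ T.M i))).Finite := by
      intro l' h
      have h2 := fin1 (T.normal i) (hfin l l') (f m) (hf m) g h
      refine (h2.image fun y => y * h).subset ?_
      intro x hx
      refine ⟨x * h⁻¹, ?_, by group⟩
      have h3 := right_ne_zero_of_mul (Function.mem_support.1 hx)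
      rw [Function.mem_support]
      have e4 : g * (x * h⁻¹) * h = g * x := by group
      rw [e4]
      exact h3
    rw [finsum_congr e3, finsum_sum_comm]
    · refine Finset.sum_congr rfl fun l' _ => ?_
      rw [finsum_sum_comm]
      · refine Finset.sum_congr rfl fun h _ => ?_
        rw [← finsum_comp_equiv (Equiv.mulRight h)]
        refine finsum_congr fun y => ?_
        rw [Equiv.coe_mulRight, mul_inv_cancel_right, mul_assoc g y h]
      · intro h _
        exact hs l' h
    · intro l' _
      refine ((a l' m).support.finite_toSet.biUnion fun h _ => hs l' h).subset ?_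
      intro x hx
      obtain ⟨h, hh, hne⟩ := Finset.exists_ne_zero_of_sum_ne_zero (Function.mem_support.1 hx)
      exact Set.mem_iUnion₂.2 ⟨h, hh, hne⟩
  rw [e1, Finset.sum_congr rfl fun m _ => e2 m, Finset.sum_comm]
  refine Finset.sum_eq_zero fun l' _ => ?_
  have hs2 : ∀ m, ∀ h : G, (Function.support fun y : G =>
      a l' m h * (F.co (D.p (B l l')) y * f m ((g * y * h : G) : G ⧸ T.M i))).Finite := by
    intro m h
    refine (fin1 (T.normal i) (hfin l l') (f m) (hf m) g h).subset ?_
    intro y hy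
    exact right_ne_zero_of_mul (Function.mem_support.1 hy)
  have e5 : ∀ m, ∑ h ∈ (a l' m).support, ∑ᶠ y : G,
        a l' m h * (F.co (D.p (B l l')) y * f m ((g * y * h : G) : G ⧸ T.M i)) =
      ∑ᶠ y : G, ∑ h ∈ (a l' m).support,
        a l' m h * (F.co (D.p (B l l')) y * f m ((g * y * h : G) : G ⧸ T.M i)) := by
    intro m
    rw [finsum_sum_comm]
    intro h _
    exact hs2 m h
  rw [Finset.sum_congr rfl fun m _ => e5 m, ← finsum_sum_comm]
  · refine finsum_eq_zero_of_forall_eq_zero fun y => ?_
    have h6 := hk l' (g * y)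
    have e6 : ∑ m, ∑ h ∈ (a l' m).support,
        a l' m h * (F.co (D.p (B l l')) y * f m ((g * y * h : G) : G ⧸ T.M i)) =
        F.co (D.p (B l l')) y *
          ∑ m, (a l' m).sum fun h c => c * f m ((g * y * h : G) : G ⧸ T.M i) := by
      rw [Finset.mul_sum]
      refine Finset.sum_congr rfl fun m _ => ?_
      rw [Finsupp.sum, Finset.mul_sum]
      refine Finset.sum_congr rfl fun h _ => ?_
      ring
    rw [e6, h6, mul_zero]
  · intro m _
    refine ((a l' m).support.finite_toSet.biUnion fun h _ => hs2 m h).subset ?_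
    intro x hx
    obtain ⟨h, hh, hne⟩ := Finset.exists_ne_zero_of_sum_ne_zero (Function.mem_support.1 hx)
    exact Set.mem_iUnion₂.2 ⟨h, hh, hne⟩

end

end Pool.Agent.RTF.H5
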